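import Pool.Agent.K3h63.IQ.Stm

/-!
# Invariants of equivariant direct summands (brick RETR, for helper63)
-/

set_option autoImplicit false
set_option linter.unusedSectionVars false

open CategoryTheory Limits MonoidalCategory
open Pool.Agent.Y112.SR Pool.Agent.Y112.KD Pool.Agent.Y112.SC Pool.Agent.R905
open Pool.Agent.K3h63.IQ

namespace Pool.Agent.K3h40.IQ

universe v u

section

variable {C : Type u} [Category.{v} C] [Preadditive C] [Linear ℚ C] [MonoidalCategory C]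
  [MonoidalPreadditive C] [MonoidalLinear ℚ C]

/-- The projector `(1 / |G|) ∑ g ⊗ g`. -/
noncomputable def prj {G : Type} [Group G] [Fintype G] {M N : C} (ρ : G →* End M)
    (τ : G →* End N) : M ⊗ N ⟶ M ⊗ N := (Fintype.card G : ℚ)⁻¹ •
    ∑ g : G, (((ρ g : End M) : M ⟶ M) ⊗ₘ ((τ g : End N) : N ⟶ N))

theorem prj_idem {G : Type} [Group G] [Fintype G] {M N : C} (ρ : G →* End M)
    (τ : G →* End N) : prj ρ τ ≫ prj ρ τ = prj ρ τ := by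
  have hD : ∀ g h : G, (((ρ g : End M) : M ⟶ M) ⊗ₘ ((τ g : End N) : N ⟶ N)) ≫
      (((ρ h : End M) : M ⟶ M) ⊗ₘ ((τ h : End N) : N ⟶ N)) =
      (((ρ (h * g) : End M) : M ⟶ M) ⊗ₘ ((τ (h * g) : End N) : N ⟶ N)) := by
    intro g h
    rw [tensorHom_comp_tensorHom, map_mul, map_mul]
    rfl
  unfold prj
  rw [Linear.smul_comp, Linear.comp_smul, Preadditive.sum_comp]
  have h1 : ∀ g : G, (((ρ g : End M) : M ⟶ M) ⊗ₘ ((τ g : End N) : N ⟶ N)) ≫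
      (∑ h : G, (((ρ h : End M) : M ⟶ M) ⊗ₘ ((τ h : End N) : N ⟶ N))) =
      ∑ h : G, (((ρ h : End M) : M ⟶ M) ⊗ₘ ((τ h : End N) : N ⟶ N)) := by
    intro g
    rw [Preadditive.comp_sum]
    simp only [hD]
    exact Equiv.sum_comp (Equiv.mulRight g)
      (fun h => (((ρ h : End M) : M ⟶ M) ⊗ₘ ((τ h : End N) : N ⟶ N)))
  rw [Finset.sum_congr rfl fun g _ => h1 g, Finset.sum_const, Finset.card_univ,
    ← Nat.cast_smul_eq_nsmul ℚ, smul_smul (Fintype.card G : ℚ)⁻¹ (Fintype.card G : ℚ),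
    inv_mul_cancel₀ (Nat.cast_ne_zero.2 Fintype.card_ne_zero), one_smul]

end

/-- **RETR**. -/
theorem t_RETR : S_RETR.{v, u} := by
  intro C _ _ _ _ _ _ _ _ G _ _ M N P E F ρ τ j q ρE i r τF i' r' hinv hir hρ hir' hτ
  obtain ⟨T, jE, qE, h1, h2⟩ := IsIdempotentComplete.idempotents_split (E ⊗ F) (prj ρE τF)
    (prj_idem ρE τF)
  have hcom : (i ⊗ₘ i') ≫ prj ρ τ = prj ρE τF ≫ (i ⊗ₘ i') := by
    unfold prj
    rw [Linear.comp_smul, Linear.smul_comp, Preadditive.comp_sum, Preadditive.sum_comp]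
    congr 1
    apply Finset.sum_congr rfl
    intro g _
    rw [tensorHom_comp_tensorHom, tensorHom_comp_tensorHom, (hρ g).1, (hτ g).1]
  have hq : q ≫ j = prj ρ τ := hinv.proj
  refine ⟨T, jE, qE, jE ≫ (i ⊗ₘ i') ≫ q, j ≫ (r ⊗ₘ r') ≫ qE, ⟨h1, h2⟩, ?_⟩
  calc (jE ≫ (i ⊗ₘ i') ≫ q) ≫ j ≫ (r ⊗ₘ r') ≫ qE
      = jE ≫ ((i ⊗ₘ i') ≫ (q ≫ j)) ≫ (r ⊗ₘ r') ≫ qE := by simp only [Category.assoc]
    _ = jE ≫ (prj ρE τF ≫ (i ⊗ₘ i')) ≫ (r ⊗ₘ r') ≫ qE := by rw [hq, hcom]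
    _ = jE ≫ prj ρE τF ≫ ((i ⊗ₘ i') ≫ (r ⊗ₘ r')) ≫ qE := by simp only [Category.assoc]
    _ = jE ≫ prj ρE τF ≫ qE := by
        rw [tensorHom_comp_tensorHom, hir, hir', id_tensorHom_id, Category.id_comp]
    _ = (jE ≫ qE) ≫ (jE ≫ qE) := by rw [← h2]; simp only [Category.assoc]
    _ = 𝟙 T := by rw [h1, Category.comp_id]

end Pool.Agent.K3h40.IQ
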